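import Pool.Agent.U954.GE.Cub
import Pool.Agent.U954.GE.Jt2

/-!
Self-avoiding walks on `ℤ³`: the numbers of walks with given times of the highest sites, for several
rankings of the sites at once. They add up to the number of all walks; regularity to all orders in
each of the times, and an upper bound.
-/

set_option autoImplicit false

namespace Pool.Agent.Results.MP_794e6e_pr.JointTopTimes

/-- `ω` is an `n`-step self-avoiding walk on `ℤ³` started at the origin. -/
def IsSAW (n : ℕ) (ω : Fin (n + 1) → ℤ × ℤ × ℤ) : Prop :=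
  ω 0 = (0, 0, 0) ∧
  (∀ i : Fin n, |(ω i.succ).1 - (ω i.castSucc).1| + |(ω i.succ).2.1 - (ω i.castSucc).2.1| +
    |(ω i.succ).2.2 - (ω i.castSucc).2.2| = 1) ∧
  Function.Injective ω

/-- The number `c_n` of the `n`-step self-avoiding walks started at the origin. -/
noncomputable def count (n : ℕ) : ℕ := {ω | IsSAW n ω}.ncard

/-- At time `t` the walk is at its highest site, for the ranking `φ` of the sites. -/
def IsTop {α : Type} [LinearOrder α] {n : ℕ} (φ : ℤ × ℤ × ℤ → α) (ω : Fin (n + 1) → ℤ × ℤ × ℤ)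
    (t : ℕ) : Prop :=
  t ≤ n ∧ ∀ u : Fin (n + 1), φ (ω u) ≤ φ (ω (Fin.ofNat (n + 1) t))

/-- The number of the `n`-step self-avoiding walks started at the origin which are at their highest
site for the ranking `φ i` at the time `t i`, for all `i`. -/
noncomputable def tops {α : Type} [LinearOrder α] {k : ℕ} (φ : Fin k → ℤ × ℤ × ℤ → α) (n : ℕ)
    (t : Fin k → ℕ) : ℕ := {ω | IsSAW n ω ∧ ∀ i, IsTop (φ i) ω (t i)}.ncard

/-- The times `t i` have at least the distance `g` from each other and from `0` and `n`. -/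
def Apart {k : ℕ} (g n : ℕ) (t : Fin k → ℕ) : Prop :=
  ∀ i, g ≤ t i ∧ t i + g ≤ n ∧ ∀ i', i' ≠ i → t i + g ≤ t i' ∨ t i' + g ≤ t i

/-- The `r`-th difference `∑ (-1)^i C(r, i) f(i)` of a sequence. -/
noncomputable def diff (r : ℕ) (f : ℕ → ℝ) : ℝ :=
  ∑ i ∈ Finset.range (r + 1), (-1 : ℝ) ^ i * (r.choose i : ℝ) * f i

/-- `n^(1/3) exp(K (log log n)²)` -/
noncomputable def scale (K : ℝ) (n : ℕ) : ℝ :=
  (n : ℝ) ^ (1 / 3 : ℝ) * Real.exp (K * Real.log (Real.log n) ^ 2)

section aux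

open Pool.Agent.U954.GE Pool.Agent.N929.EG Pool.Agent.N169.EG

open scoped Classical

theorem adj_iff (x y : ℤ × ℤ × ℤ) : A3 x y ↔ |y.1 - x.1| + |y.2.1 - x.2.1| + |y.2.2 - x.2.2| = 1 := by
  obtain ⟨x1, x2, x3⟩ := x
  obtain ⟨y1, y2, y3⟩ := y
  simp only
  unfold A3
  constructor
  · rintro ⟨d, hd⟩
    cases d <;> simp only [KN.vec, Prod.mk_add_mk, Prod.mk.injEq] at hd <;>
      obtain ⟨h1, h2, h3⟩ := hd <;> subst h1 h2 h3 <;> simp
  · intro h
    have a1 := abs_nonneg (y1 - x1)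
    have a2 := abs_nonneg (y2 - x2)
    have a3 := abs_nonneg (y3 - x3)
    have key : (|y1 - x1| = 1 ∧ |y2 - x2| = 0 ∧ |y3 - x3| = 0) ∨
        (|y1 - x1| = 0 ∧ |y2 - x2| = 1 ∧ |y3 - x3| = 0) ∨
        (|y1 - x1| = 0 ∧ |y2 - x2| = 0 ∧ |y3 - x3| = 1) := by omega
    rcases key with ⟨h1, h2, h3⟩ | ⟨h1, h2, h3⟩ | ⟨h1, h2, h3⟩
    · rw [abs_eq_zero] at h2 h3
      rcases (abs_eq (by norm_num)).mp h1 with h1 | h1
      · exact ⟨.xp, by simp only [KN.vec, Prod.mk_add_mk, Prod.mk.injEq]; omega⟩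
      · exact ⟨.xm, by simp only [KN.vec, Prod.mk_add_mk, Prod.mk.injEq]; omega⟩
    · rw [abs_eq_zero] at h1 h3
      rcases (abs_eq (by norm_num)).mp h2 with h2 | h2
      · exact ⟨.yp, by simp only [KN.vec, Prod.mk_add_mk, Prod.mk.injEq]; omega⟩
      · exact ⟨.ym, by simp only [KN.vec, Prod.mk_add_mk, Prod.mk.injEq]; omega⟩
    · rw [abs_eq_zero] at h1 h2
      rcases (abs_eq (by norm_num)).mp h3 with h3 | h3
      · exact ⟨.zp, by simp only [KN.vec, Prod.mk_add_mk, Prod.mk.injEq]; omega⟩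
      · exact ⟨.zm, by simp only [KN.vec, Prod.mk_add_mk, Prod.mk.injEq]; omega⟩

theorem cla : Cla Pool.Agent.N953.EG.X3 A3 Set.univ (fun n => {ω | IsSAW n ω}) := by
  intro n ω
  constructor
  · rintro ⟨h1, h2, h3⟩
    exact ⟨⟨h1, fun i => (adj_iff _ _).mpr (h2 i), h3⟩, fun _ => Set.mem_univ _⟩
  · rintro ⟨⟨h1, h2, h3⟩, -⟩
    exact ⟨h1, fun i => (adj_iff _ _).mp (h2 i), h3⟩

/-- the scale -/
theorem scale_le {K K₁ : ℝ} (hK : 0 ≤ K) (hK₁ : 3 ≤ K₁) {n : ℕ} (hn : 3 ≤ n) :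
    K₁ * psi3 K n ≤ K₁ * Real.exp (8 * K) * scale K n := by
  have h1 := ll_le hn
  unfold psi3 scale
  have h2 : Real.exp (K * ll n) ≤ Real.exp (8 * K) * Real.exp (K * Real.log (Real.log n) ^ 2) := by
    rw [← Real.exp_add]
    apply Real.exp_le_exp.mpr
    have := mul_le_mul_of_nonneg_left h1 hK
    linarith
  calc K₁ * ((n : ℝ) ^ (1 / 3 : ℝ) * Real.exp (K * ll n))
      ≤ K₁ * ((n : ℝ) ^ (1 / 3 : ℝ) *
        (Real.exp (8 * K) * Real.exp (K * Real.log (Real.log n) ^ 2))) := by gcongr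
    _ = _ := by ring

theorem scale_nonneg (K : ℝ) (n : ℕ) : 0 ≤ scale K n := by unfold scale; positivity

theorem sqrt_mono {C C' x : ℝ} (r : ℕ) (h : C ≤ C') : C * Real.sqrt x ^ r ≤ C' * Real.sqrt x ^ r :=
  mul_le_mul_of_nonneg_right h (by positivity)

end aux

/-- **Theorem.** Let `c_n` be the number of the `n`-step self-avoiding walks on `ℤ³` from `0`. A
ranking of the sites is an injective map `φ` from `ℤ³` to a linearly ordered set. For rankings
`φ 1, …, φ k` and times `t 1, …, t k` let `N(t)` be the number of these walks which are, for all `i`,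
at their highest site with respect to `φ i` at the time `t i`.

(1) `c_n = ∑_t N(t)`.

There is a constant `K` such that, with `S(n) = n^(1/3) exp(K (log log n)²)`:

(2) For all `k`, `r ≥ 1` there is `C` such that the following holds for all `φ`: if the `t i` have at
least the distance `g` from each other and from `0` and `n ≥ 3`, `N(t) ≥ e^(-L) c_n`, `L ≥ log n` and
`g ≥ C (S(n) + L)`, then for every `j` the numbers `N(t + 2 h e_j)`, `0 ≤ h ≤ r`, are positive, and
the `r`-th difference of their logarithms is at most `C (L / g)^(r/2)`.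

(3) For every `k` there is `C` such that `N(t) ≤ C (log n / g)^(k/2) c_n` for all `φ`, if the `t i`
have at least the distance `g` from each other and from `0` and `n ≥ 3`, and `g ≥ C S(n)`. -/
theorem result :
    (∀ (k : ℕ) (α : Type) (_ : LinearOrder α) (φ : Fin k → ℤ × ℤ × ℤ → α),
      (∀ i, Function.Injective (φ i)) → ∀ n : ℕ,
      ∑ t ∈ Fintype.piFinset (fun _ : Fin k => Finset.range (n + 1)), tops φ n t = count n) ∧
    ∃ K : ℝ,
    (∀ k r : ℕ, 1 ≤ r → ∃ C : ℝ, 0 < C ∧ ∀ (α : Type) (_ : LinearOrder α)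
      (φ : Fin k → ℤ × ℤ × ℤ → α), (∀ i, Function.Injective (φ i)) →
      ∀ (n g : ℕ) (t : Fin k → ℕ) (j : Fin k) (L : ℝ), 3 ≤ n → Real.log n ≤ L →
      Real.exp (-L) * (count n : ℝ) ≤ (tops φ n t : ℝ) → Apart g n t →
      C * (scale K n + L) ≤ g →
      (∀ h, h ≤ r → 0 < tops φ n (Function.update t j (t j + 2 * h))) ∧
      |diff r (fun h => Real.log (tops φ n (Function.update t j (t j + 2 * h)) : ℝ))| ≤
        C * Real.sqrt (L / g) ^ r) ∧
    (∀ k : ℕ, ∃ C : ℝ, 0 < C ∧ ∀ (α : Type) (_ : LinearOrder α)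
      (φ : Fin k → ℤ × ℤ × ℤ → α), (∀ i, Function.Injective (φ i)) →
      ∀ (n g : ℕ) (t : Fin k → ℕ), 3 ≤ n → Apart g n t → C * scale K n ≤ g →
      (tops φ n t : ℝ) ≤ C * Real.sqrt (Real.log n / g) ^ k * (count n : ℝ)) := by
  open Pool.Agent.U954.GE Pool.Agent.N929.EG in
  refine ⟨fun k α _ φ hφ n => Jt.sum_NT Pool.Agent.N953.EG.R3 cla φ hφ n, ?_⟩
  obtain ⟨K, K₁, hK, hK₁, ⟨D⟩⟩ := dat3
  obtain ⟨κ, hκ⟩ : ∃ κ : ℝ, κ = K₁ * Real.exp (8 * K) + 4 := ⟨_, rfl⟩
  have he0 : 0 < Real.exp (8 * K) := Real.exp_pos _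
  have hκ0 : 0 < κ := by rw [hκ]; positivity
  have hκ1 : 1 ≤ κ := by
    rw [hκ]
    have : 0 ≤ K₁ * Real.exp (8 * K) := by positivity
    linarith
  have hψ : ∀ n : ℕ, 3 ≤ n → K₁ * psi3 K n ≤ κ * scale K n := by
    intro n hn
    refine (scale_le hK hK₁ hn).trans (mul_le_mul_of_nonneg_right ?_ (scale_nonneg _ _))
    rw [hκ]
    linarith
  have hlog : ∀ n : ℕ, 2 ≤ n → Real.log n ≤ K₁ * psi3 K n := fun n hn =>
    (phi3 K K₁ hK hK₁).log n hn
  have hcount : ∀ n : ℕ, 2 ≤ n → (0 : ℝ) < (({ω | IsSAW n ω}.ncard : ℕ) : ℝ) := by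
    intro n hn
    rw [Pg.cla_ncard Pool.Agent.N953.EG.R3 cla n]
    exact HW_pos D hn
  refine ⟨K, fun k r hr => ?_, fun k => ?_⟩
  · obtain ⟨C, hC, h⟩ := Jt.count_diff (lam := fun n => Real.log n) Pool.Agent.N953.EG.R3 cla
      (k := k) hr le_rfl (fun n _ => le_rfl) hlog hcount (general D cla k (Or.inl sub3) r hr)
    refine ⟨C * κ, by positivity, fun α _ φ hφ n g t j L hn hL hp hsep hg => ?_⟩
    have hL0 : 0 ≤ L := (Real.log_natCast_nonneg _).trans hL
    obtain ⟨k1, k2⟩ := h α inferInstance φ hφ n g t j L (by omega) hL hp hsep (by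
      refine le_trans ?_ hg
      rw [mul_assoc]
      refine mul_le_mul_of_nonneg_left ?_ hC.le
      have h1 := hψ n hn
      have h2 : L ≤ κ * L := le_mul_of_one_le_left hL0 hκ1
      rw [mul_add]
      linarith)
    exact ⟨k1, k2.trans (sqrt_mono r (le_mul_of_one_le_right hC.le hκ1))⟩
  · obtain ⟨C, hC, h⟩ := Jt.count_point (lam := fun n => Real.log n) Pool.Agent.N953.EG.R3 cla
      (k := k) (by norm_num) le_rfl (fun n _ => le_rfl) hlog hcount
      (general D cla k (Or.inl sub3) 1 le_rfl)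
    refine ⟨C * (2 * κ), by positivity, fun α _ φ hφ n g t hn hsep hg => ?_⟩
    have h3 := h α inferInstance φ hφ n g t (by omega) hsep (by
      refine le_trans ?_ hg
      rw [mul_assoc]
      refine mul_le_mul_of_nonneg_left ?_ hC.le
      have h1 := hψ n hn
      have h2 := hlog n (by omega)
      linarith)
    refine h3.trans (mul_le_mul_of_nonneg_right (sqrt_mono k ?_) (Nat.cast_nonneg _))
    exact le_mul_of_one_le_right hC.le (by linarith)

end Pool.Agent.Results.MP_794e6e_pr.JointTopTimes
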