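import Pool.Agent.U17.TS.Count
import Pool.Agent.Results.MP_794e6e_pr.AllOrders

/-!
# Self-avoiding walks on `ℤ³`: the non-intersection probability `c_{2n} / c_n²`
-/

set_option autoImplicit false

namespace Pool.Agent.Results.MP_794e6e_pr.ThreeDimDoubling

open Filter Topology Pool.Agent.Results.MP_794e6e_pr.AllOrders

/-- `a, b ≥ 2` and no power of `a` is a power of `b`, for instance `a = 2` and `b = 3` -/
def Independent (a b : ℕ) : Prop :=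
  2 ≤ a ∧ 2 ≤ b ∧ ∀ i j : ℕ, 0 < i → 0 < j → a ^ i ≠ b ^ j

/-- integers `v_j → ∞` with gaps at most `v_j ^ e` -/
def Sparse (e : ℝ) (v : ℕ → ℕ) : Prop :=
  Tendsto v atTop atTop ∧ ∀ᶠ j : ℕ in atTop, (v (j + 1) : ℝ) ≤ v j + (v j : ℝ) ^ e

/-- `R_n = c_{2 n} / c_n ^ 2`, the probability that two independent uniform `n`-step self-avoiding
walks on `ℤ³` from the origin meet only at the origin -/
noncomputable def R (n : ℕ) : ℝ := (c (2 * n) : ℝ) / (c n : ℝ) ^ 2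

/-- The expansion `θ log n + ∑ a_i n ^ (-τ_i)`. -/
noncomputable def expansion (q : ℕ) (θ : ℝ) (a τ : Fin q → ℝ) (n : ℕ) : ℝ :=
  θ * Real.log n + ∑ i, a i * (n : ℝ) ^ (-(τ i))

/-- (1) Q1 with exponent `γ` and constant `A = 2 ^ (γ - 1) / B`: `c_n / (μ ^ n n ^ (γ - 1)) → A` if
and only if `R_n n ^ (γ - 1) → B` along `n = 2 v_j` and along `n = 2 w_j + 1`. -/
def Limits (μ : ℝ) (v w : ℕ → ℕ) : Prop :=
  ∀ γ B : ℝ, 0 < B →
    (Tendsto (fun n : ℕ => (c n : ℝ) / (μ ^ n * (n : ℝ) ^ (γ - 1))) atTop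
        (𝓝 (2 ^ (γ - 1) / B)) ↔
      Tendsto (fun j => R (2 * v j) * ((2 * v j : ℕ) : ℝ) ^ (γ - 1)) atTop (𝓝 B) ∧
      Tendsto (fun j => R (2 * w j + 1) * ((2 * w j + 1 : ℕ) : ℝ) ^ (γ - 1)) atTop (𝓝 B))

/-- (2) Expansions `G(n) = θ log n + ∑ a_i n ^ (-τ_i)`, `τ_i ≥ 0`:
`log R_n = G(2 n) - 2 G(n) + O(n ^ (-M))` along `n = 2 v_j` and `n = 2 w_j + 1` if and only if for
all `r ≥ 0` and `0 ≤ x < 1/3` the differences of order `r` (with step `2`) of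
`log (c_n / μ ^ n) - G(n)` are `O(n ^ (-M - x r))`, along all `n`. -/
def Expansions (μ : ℝ) (v w : ℕ → ℕ) : Prop :=
  ∀ (q : ℕ) (θ : ℝ) (a τ : Fin q → ℝ), (∀ i, 0 ≤ τ i) → ∀ M : ℝ, 0 ≤ M →
    (((∃ C : ℝ, ∀ᶠ j : ℕ in atTop,
        |Real.log (R (2 * v j)) -
          (expansion q θ a τ (2 * (2 * v j)) - 2 * expansion q θ a τ (2 * v j))| ≤
          C * (v j : ℝ) ^ (-M)) ∧
      ∃ C : ℝ, ∀ᶠ j : ℕ in atTop,
        |Real.log (R (2 * w j + 1)) -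
          (expansion q θ a τ (2 * (2 * w j + 1)) - 2 * expansion q θ a τ (2 * w j + 1))| ≤
          C * (w j : ℝ) ^ (-M)) ↔
    ∀ (r : ℕ) (x : ℝ), 0 ≤ x → x < 1 / 3 → ∃ C : ℝ, ∀ᶠ n : ℕ in atTop,
      |∑ i ∈ Finset.range (r + 1), (-1 : ℝ) ^ i * (r.choose i : ℝ) *
        (Real.log ((c (n + 2 * i) : ℝ) / μ ^ (n + 2 * i)) - expansion q θ a τ (n + 2 * i))| ≤
        C * (n : ℝ) ^ (-(M + x * r)))

/-- (3) Ratios of ratios: `c_n / (μ ^ n n ^ (γ - 1)) = A + O(n ^ (-M))` for some `A > 0`, along all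
`n`, if and only if `R_{a n} / R_n = a ^ (1 - γ) + O(n ^ (-M))` along `n = 2 v_j`,
`R_{b n} / R_n = b ^ (1 - γ) + O(n ^ (-M))` along `n = 2 w_j` and
`R_{2 n} / R_n = 2 ^ (1 - γ) + O(n ^ (-M))` along `n = 2 u_j + 1`. -/
def RatiosOfRatios (μ : ℝ) (a b : ℕ) (v w u : ℕ → ℕ) : Prop :=
  ∀ M : ℝ, 0 < M → ∀ γ : ℝ,
    (((∃ C : ℝ, ∀ᶠ j : ℕ in atTop,
        |R (a * (2 * v j)) / R (2 * v j) - (a : ℝ) ^ (1 - γ)| ≤ C * (v j : ℝ) ^ (-M)) ∧
      (∃ C : ℝ, ∀ᶠ j : ℕ in atTop,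
        |R (b * (2 * w j)) / R (2 * w j) - (b : ℝ) ^ (1 - γ)| ≤ C * (w j : ℝ) ^ (-M)) ∧
      ∃ C : ℝ, ∀ᶠ j : ℕ in atTop,
        |R (2 * (2 * u j + 1)) / R (2 * u j + 1) - (2 : ℝ) ^ (1 - γ)| ≤
          C * (u j : ℝ) ^ (-M)) ↔
    ∃ A : ℝ, 0 < A ∧ ∃ C : ℝ, ∀ᶠ n : ℕ in atTop,
      |(c n : ℝ) / (μ ^ n * (n : ℝ) ^ (γ - 1)) - A| ≤ C * (n : ℝ) ^ (-M))

open Pool.Agent.U17.TS in
theorem cnt : ∃ μ : ℝ, Tendsto (fun n : ℕ => (c n : ℝ) ^ (1 / (n : ℝ))) atTop (𝓝 μ) ∧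
    Cnt (1 / 3) (fun n => (c n : ℝ)) μ := by
  obtain ⟨μ, hμ, hroot, K0, h⟩ := Pool.Agent.Results.MP_794e6e_pr.AllOrders.result
  have hpos : ∀ n, (0 : ℝ) < (c n : ℝ) := by
    intro n
    have h1 : c n = Pool.Agent.H46R2.K3.c n := Pool.Agent.H46R2.K3.P.card_eq n
    have h2 := Pool.Agent.H46R2.K3.P.mu_one_le_c n
    rw [h1]
    exact_mod_cast h2
  refine ⟨μ, hroot, hμ, hpos, ?_, fun ρ => ?_⟩
  · have h1 := ((Real.continuousAt_log hμ.ne').tendsto.comp hroot).sub_const (Real.log μ)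
    rw [sub_self] at h1
    refine h1.congr' ?_
    filter_upwards [eventually_ge_atTop 1] with n hn
    have hnp : (0 : ℝ) < n := by exact_mod_cast hn
    simp only [Function.comp_apply]
    rw [Real.log_rpow (hpos n), Real.log_div (hpos n).ne' (by positivity), Real.log_pow]
    field_simp
  · refine Pool.Agent.N226.SX.reg_of_third
      (f := fun n => Real.log ((c n : ℝ) / μ ^ n)) ρ K0 fun r hr => ?_
    obtain ⟨K, hK⟩ := h r hr
    exact ⟨K, (eventually_ge_atTop 3).mono fun n hn => hK n hn⟩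

/-- **Theorem.** Let `c_n` be the number of `n`-step self-avoiding walks on `ℤ³` from the origin and
`μ` the limit of `c_n ^ (1/n)`.  For sequences `v`, `w`, `u` with gaps at most `v_j ^ e`, `e < 1/3`,
the equivalences (1) `Limits`, (2) `Expansions` and, for independent `a, b`, for instance `2` and
`3`, (3) `RatiosOfRatios` hold. -/
theorem result : ∃ μ : ℝ, 0 < μ ∧
    Tendsto (fun n : ℕ => (c n : ℝ) ^ (1 / (n : ℝ))) atTop (𝓝 μ) ∧
    ∀ e : ℝ, 0 ≤ e → e < 1 / 3 → ∀ v w : ℕ → ℕ, Sparse e v → Sparse e w →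
      Limits μ v w ∧ Expansions μ v w ∧
      ∀ a b : ℕ, Independent a b → ∀ u : ℕ → ℕ, Sparse e u → RatiosOfRatios μ a b v w u := by
  obtain ⟨μ, hroot, H⟩ := cnt
  refine ⟨μ, H.mu_pos, hroot, fun e he0 he v w hv hw => ⟨?_, ?_, ?_⟩⟩
  · intro γ B hB
    have hA : (0 : ℝ) < 2 ^ (γ - 1) / B := by positivity
    exact Pool.Agent.U17.TS.form_lim_iff H (by norm_num) hA hB (by field_simp) e he0 he
      v hv.1 hv.2 w hw.1 hw.2
  · intro q θ a τ hτ M hM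
    refine Pool.Agent.U17.TS.exp_iff H (by norm_num) (by norm_num) (g := expansion q θ a τ)
      (fun ρ => Pool.Agent.N226.SX.reg_G2 (1 / 3) (by norm_num) ρ q θ a τ hτ) ?_ hM e he0 he
      v hv.1 hv.2 w hw.1 hw.2
    -- `G(n) / n → 0`
    have h1 : Tendsto (fun x : ℝ => Real.log x ^ 1 / (1 * x + 0)) atTop (𝓝 0) :=
      Real.tendsto_pow_log_div_mul_add_atTop 1 0 1 one_ne_zero
    have h2 := (h1.comp (tendsto_natCast_atTop_atTop (R := ℝ))).const_mul θ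
    have h3 : Tendsto (fun n : ℕ => ∑ i, a i * ((n : ℝ) ^ (-(τ i)) / n)) atTop
        (𝓝 (∑ i : Fin q, a i * 0)) := by
      refine tendsto_finsetSum _ fun i _ => Tendsto.const_mul _ ?_
      have h4 : Tendsto (fun n : ℕ => (n : ℝ) ^ (-(τ i + 1))) atTop (𝓝 0) :=
        (tendsto_rpow_neg_atTop (by have := hτ i; linarith : 0 < τ i + 1)).comp
          tendsto_natCast_atTop_atTop
      refine h4.congr' ?_
      filter_upwards [eventually_ge_atTop 1] with n hn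
      have hnp : (0 : ℝ) < n := by exact_mod_cast hn
      rw [neg_add, Real.rpow_add hnp, Real.rpow_neg_one, div_eq_mul_inv]
    have h5 := h2.add h3
    simp only [mul_zero, Finset.sum_const_zero, add_zero] at h5
    refine h5.congr fun n => ?_
    unfold expansion
    simp only [Function.comp_apply, pow_one, one_mul]
    rw [add_div, Finset.sum_div]
    congr 1
    · ring
    · exact Finset.sum_congr rfl fun i _ => by ring
  · intro a b hab u hu M hM γ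
    have h := Pool.Agent.U17.TS.two_rate_iff H (by norm_num) (by norm_num) hab.1 hab.2.1 hab.2.2
      hM e he0 he v hv.1 hv.2 w hw.1 hw.2 u hu.1 hu.2 (γ - 1)
    have e1 : -(γ - 1) = 1 - γ := by ring
    rw [e1] at h
    exact h

end Pool.Agent.Results.MP_794e6e_pr.ThreeDimDoubling
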