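import Pool.Agent.U954.GE.Cub
import Pool.Agent.U954.GE.Rc

/-!
Self-avoiding walks on `ℤ³`: the numbers of walks with given times of the highest sites, for several
rankings of the sites at once. As a function of two of the times, they are locally nearly a product of
a function of the first time and a function of the second time.
-/

set_option autoImplicit false

namespace Pool.Agent.Results.MP_794e6e_pr.TopTimesFactor

/-- `ω` is an `n`-step self-avoiding walk on `ℤ³` started at the origin. -/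
def IsSAW (n : ℕ) (ω : Fin (n + 1) → ℤ × ℤ × ℤ) : Prop :=
  ω 0 = (0, 0, 0) ∧
  (∀ i : Fin n, |(ω i.succ).1 - (ω i.castSucc).1| + |(ω i.succ).2.1 - (ω i.castSucc).2.1| +
    |(ω i.succ).2.2 - (ω i.castSucc).2.2| = 1) ∧
  Function.Injective ω

/-- The number `c_n` of the `n`-step self-avoiding walks started at the origin. -/
noncomputable def count (n : ℕ) : ℕ := {ω | IsSAW n ω}.ncard

/-- At time `t` the walk is at its highest site, for the ranking `φ` of the sites. -/
def IsTop {α : Type} [LinearOrder α] {n : ℕ} (φ : ℤ × ℤ × ℤ → α) (ω : Fin (n + 1) → ℤ × ℤ × ℤ)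
    (t : ℕ) : Prop :=
  t ≤ n ∧ ∀ u : Fin (n + 1), φ (ω u) ≤ φ (ω (Fin.ofNat (n + 1) t))

/-- The number of the `n`-step self-avoiding walks started at the origin which are at their highest
site for the ranking `φ i` at the time `t i`, for all `i`. -/
noncomputable def tops {α : Type} [LinearOrder α] {k : ℕ} (φ : Fin k → ℤ × ℤ × ℤ → α) (n : ℕ)
    (t : Fin k → ℕ) : ℕ := {ω | IsSAW n ω ∧ ∀ i, IsTop (φ i) ω (t i)}.ncard

/-- The times `t i` have at least the distance `g` from each other and from `0` and `n`. -/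
def Apart {k : ℕ} (g n : ℕ) (t : Fin k → ℕ) : Prop :=
  ∀ i, g ≤ t i ∧ t i + g ≤ n ∧ ∀ i', i' ≠ i → t i + g ≤ t i' ∨ t i' + g ≤ t i

/-- The times `t`, where `2 a` is added to `t i` and `2 b` to `t j`. -/
def shift {k : ℕ} (i j : Fin k) (a b : ℕ) (t : Fin k → ℕ) : Fin k → ℕ :=
  fun l => t l + (if l = i then 2 * a else 0) + (if l = j then 2 * b else 0)

/-- `n^(1/3) exp(K (log log n)²)` -/
noncomputable def scale (K : ℝ) (n : ℕ) : ℝ :=
  (n : ℝ) ^ (1 / 3 : ℝ) * Real.exp (K * Real.log (Real.log n) ^ 2)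

section aux

open Pool.Agent.U954.GE Pool.Agent.N929.EG Pool.Agent.N169.EG

open scoped Classical

theorem adj_iff (x y : ℤ × ℤ × ℤ) : A3 x y ↔ |y.1 - x.1| + |y.2.1 - x.2.1| + |y.2.2 - x.2.2| = 1 := by
  obtain ⟨x1, x2, x3⟩ := x
  obtain ⟨y1, y2, y3⟩ := y
  simp only
  unfold A3
  constructor
  · rintro ⟨d, hd⟩
    cases d <;> simp only [KN.vec, Prod.mk_add_mk, Prod.mk.injEq] at hd <;>
      obtain ⟨h1, h2, h3⟩ := hd <;> subst h1 h2 h3 <;> simp
  · intro h
    have a1 := abs_nonneg (y1 - x1)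
    have a2 := abs_nonneg (y2 - x2)
    have a3 := abs_nonneg (y3 - x3)
    have key : (|y1 - x1| = 1 ∧ |y2 - x2| = 0 ∧ |y3 - x3| = 0) ∨
        (|y1 - x1| = 0 ∧ |y2 - x2| = 1 ∧ |y3 - x3| = 0) ∨
        (|y1 - x1| = 0 ∧ |y2 - x2| = 0 ∧ |y3 - x3| = 1) := by omega
    rcases key with ⟨h1, h2, h3⟩ | ⟨h1, h2, h3⟩ | ⟨h1, h2, h3⟩
    · rw [abs_eq_zero] at h2 h3
      rcases (abs_eq (by norm_num)).mp h1 with h1 | h1
      · exact ⟨.xp, by simp only [KN.vec, Prod.mk_add_mk, Prod.mk.injEq]; omega⟩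
      · exact ⟨.xm, by simp only [KN.vec, Prod.mk_add_mk, Prod.mk.injEq]; omega⟩
    · rw [abs_eq_zero] at h1 h3
      rcases (abs_eq (by norm_num)).mp h2 with h2 | h2
      · exact ⟨.yp, by simp only [KN.vec, Prod.mk_add_mk, Prod.mk.injEq]; omega⟩
      · exact ⟨.ym, by simp only [KN.vec, Prod.mk_add_mk, Prod.mk.injEq]; omega⟩
    · rw [abs_eq_zero] at h1 h2
      rcases (abs_eq (by norm_num)).mp h3 with h3 | h3
      · exact ⟨.zp, by simp only [KN.vec, Prod.mk_add_mk, Prod.mk.injEq]; omega⟩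
      · exact ⟨.zm, by simp only [KN.vec, Prod.mk_add_mk, Prod.mk.injEq]; omega⟩

theorem cla : Cla Pool.Agent.N953.EG.X3 A3 Set.univ (fun n => {ω | IsSAW n ω}) := by
  intro n ω
  constructor
  · rintro ⟨h1, h2, h3⟩
    exact ⟨⟨h1, fun i => (adj_iff _ _).mpr (h2 i), h3⟩, fun _ => Set.mem_univ _⟩
  · rintro ⟨⟨h1, h2, h3⟩, -⟩
    exact ⟨h1, fun i => (adj_iff _ _).mp (h2 i), h3⟩

/-- the scale -/
theorem scale_le {K K₁ : ℝ} (hK : 0 ≤ K) (hK₁ : 3 ≤ K₁) {n : ℕ} (hn : 3 ≤ n) :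
    K₁ * psi3 K n ≤ K₁ * Real.exp (8 * K) * scale K n := by
  have h1 := ll_le hn
  unfold psi3 scale
  have h2 : Real.exp (K * ll n) ≤ Real.exp (8 * K) * Real.exp (K * Real.log (Real.log n) ^ 2) := by
    rw [← Real.exp_add]
    apply Real.exp_le_exp.mpr
    have := mul_le_mul_of_nonneg_left h1 hK
    linarith
  calc K₁ * ((n : ℝ) ^ (1 / 3 : ℝ) * Real.exp (K * ll n))
      ≤ K₁ * ((n : ℝ) ^ (1 / 3 : ℝ) *
        (Real.exp (8 * K) * Real.exp (K * Real.log (Real.log n) ^ 2))) := by gcongr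
    _ = _ := by ring

theorem scale_nonneg (K : ℝ) (n : ℕ) : 0 ≤ scale K n := by unfold scale; positivity

theorem shift_eq {k : ℕ} {i j : Fin k} (hij : i ≠ j) (a b : ℕ) (t : Fin k → ℕ) :
    Jt.sh2 i j 2 a b t = shift i j a b t := by
  funext l
  unfold Jt.sh2 Jt.shf shift
  simp only [Finset.mem_singleton]
  by_cases h3 : l = i
  · have h4 : l ≠ j := fun h4 => hij (h3.symm.trans h4)
    rw [if_pos h3, if_neg h4, if_pos h3, if_neg h4, Nat.add_zero]
  · rw [if_neg h3, if_neg h3]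
    split_ifs <;> omega

end aux

/-- **Theorem.** Let `c_n` be the number of the `n`-step self-avoiding walks on `ℤ³` from `0`. A
ranking of the sites is an injective map `φ` from `ℤ³` to a linearly ordered set. For rankings
`φ 1, …, φ k` and times `t 1, …, t k` let `N(t)` be the number of these walks which are, for all `i`,
at their highest site with respect to `φ i` at the time `t i`.

There is a constant `K` such that, with `S(n) = n^(1/3) exp(K (log log n)²)`, for every `k` there is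
`C` such that the following holds for all `φ`, all `i ≠ j`, and all `a, b ≥ 0`: if the `t l` have at
least the distance `g` from each other and from `0` and `n ≥ 3`, `N(t) ≥ e^(-L) c_n`, `L ≥ log n`,
`g ≥ C (S(n) + L)` and `g ≥ C (a + b)² L`, then the numbers `N(t + 2 c e_i + 2 d e_j)`, `c ≤ a`,
`d ≤ b`, are positive, and
`|log (N(t + 2 a e_i + 2 b e_j) N(t) / (N(t + 2 a e_i) N(t + 2 b e_j)))| ≤ C a b L / g`. -/
theorem result :
    ∃ K : ℝ, ∀ k : ℕ, ∃ C : ℝ, 0 < C ∧ ∀ (α : Type) (_ : LinearOrder α)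
      (φ : Fin k → ℤ × ℤ × ℤ → α), (∀ i, Function.Injective (φ i)) →
      ∀ (n g : ℕ) (t : Fin k → ℕ) (i j : Fin k) (L : ℝ) (a b : ℕ), i ≠ j → 3 ≤ n →
      Real.log n ≤ L → Real.exp (-L) * (count n : ℝ) ≤ (tops φ n t : ℝ) → Apart g n t →
      C * (scale K n + L) ≤ g → C * ((a : ℝ) + b) ^ 2 * L ≤ g →
      (∀ c d, c ≤ a → d ≤ b → 0 < tops φ n (shift i j c d t)) ∧
      |Real.log ((tops φ n (shift i j a b t) : ℝ) * tops φ n t /
        ((tops φ n (shift i j a 0 t) : ℝ) * tops φ n (shift i j 0 b t)))| ≤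
        C * a * b * (L / g) := by
  open Pool.Agent.U954.GE Pool.Agent.N929.EG in
  obtain ⟨K, K₁, hK, hK₁, ⟨D⟩⟩ := dat3
  obtain ⟨κ, hκ⟩ : ∃ κ : ℝ, κ = K₁ * Real.exp (8 * K) + 4 := ⟨_, rfl⟩
  have he0 : 0 < Real.exp (8 * K) := Real.exp_pos _
  have hκ0 : 0 < κ := by rw [hκ]; positivity
  have hκ1 : 1 ≤ κ := by
    rw [hκ]
    have : 0 ≤ K₁ * Real.exp (8 * K) := by positivity
    linarith
  have hψ : ∀ n : ℕ, 3 ≤ n → K₁ * psi3 K n ≤ κ * scale K n := by
    intro n hn
    refine (scale_le hK hK₁ hn).trans (mul_le_mul_of_nonneg_right ?_ (scale_nonneg _ _))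
    rw [hκ]
    linarith
  have hlog : ∀ n : ℕ, 2 ≤ n → Real.log n ≤ K₁ * psi3 K n := fun n hn =>
    (phi3 K K₁ hK hK₁).log n hn
  have hcount : ∀ n : ℕ, 2 ≤ n → (0 : ℝ) < (({ω | IsSAW n ω}.ncard : ℕ) : ℝ) := by
    intro n hn
    rw [Pg.cla_ncard Pool.Agent.N953.EG.R3 cla n]
    exact HW_pos D hn
  refine ⟨K, fun k => ?_⟩
  obtain ⟨C, hC, h⟩ := Jt.count_rect (lam := fun n => Real.log n) Pool.Agent.N953.EG.R3 cla
    (k := k) le_rfl (fun n _ => le_rfl) hlog hcount
    (fun r hr => general D cla k (Or.inl sub3) r hr)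
  refine ⟨C * κ, by positivity, fun α _ φ hφ n g t i j L a b hij hn hL hp hsep hg hab => ?_⟩
  have hL0 : 0 ≤ L := (Real.log_natCast_nonneg _).trans hL
  have hCκ : C ≤ C * κ := le_mul_of_one_le_right hC.le hκ1
  obtain ⟨k1, k2⟩ := h α inferInstance φ hφ n g t i j L a b hij (by omega) hL hp hsep (by
    refine le_trans ?_ hg
    rw [mul_assoc]
    refine mul_le_mul_of_nonneg_left ?_ hC.le
    have h1 := hψ n hn
    have h2 : L ≤ κ * L := le_mul_of_one_le_left hL0 hκ1
    rw [mul_add]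
    linarith) (by
    refine le_trans (mul_le_mul_of_nonneg_right (mul_le_mul_of_nonneg_right hCκ
      (by positivity)) hL0) hab)
  rw [shift_eq hij, shift_eq hij, shift_eq hij] at k2
  have k3 : ∀ c d, c ≤ a → d ≤ b → 0 < tops φ n (shift i j c d t) := by
    intro c d hc hd
    have := k1 c d hc hd
    rw [shift_eq hij] at this
    exact this
  refine ⟨k3, ?_⟩
  have p0 : (0 : ℝ) < tops φ n t := by
    have h0 := k3 0 0 (Nat.zero_le _) (Nat.zero_le _)
    rw [← shift_eq hij, Jt.sh2_zero] at h0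
    exact_mod_cast h0
  have p1 : (0 : ℝ) < tops φ n (shift i j a b t) := by exact_mod_cast k3 a b le_rfl le_rfl
  have p2 : (0 : ℝ) < tops φ n (shift i j a 0 t) := by
    exact_mod_cast k3 a 0 le_rfl (Nat.zero_le _)
  have p3 : (0 : ℝ) < tops φ n (shift i j 0 b t) := by
    exact_mod_cast k3 0 b (Nat.zero_le _) le_rfl
  rw [Real.log_div (by positivity) (by positivity), Real.log_mul p1.ne' p0.ne',
    Real.log_mul p2.ne' p3.ne']
  have k4 : |Real.log (tops φ n (shift i j a b t) : ℝ) + Real.log (tops φ n t : ℝ) -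
      (Real.log (tops φ n (shift i j a 0 t) : ℝ) + Real.log (tops φ n (shift i j 0 b t) : ℝ))| ≤
      C * a * b * (L / g) := by
    refine le_trans (le_of_eq ?_) k2
    congr 1
    show _ = Real.log (tops φ n (shift i j a b t) : ℝ) - Real.log (tops φ n (shift i j a 0 t) : ℝ) -
      Real.log (tops φ n (shift i j 0 b t) : ℝ) + Real.log (tops φ n t : ℝ)
    ring
  refine k4.trans ?_
  have h5 : 0 ≤ (a : ℝ) * b * (L / g) := by positivity
  have h6 := mul_le_mul_of_nonneg_right hCκ h5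
  linarith

end Pool.Agent.Results.MP_794e6e_pr.TopTimesFactor
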