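import Pool.Agent.U384.SZ.Ug
import Pool.Agent.N932.FL.Z3

/-!
# Conditioned self-avoiding walks on `ℤ³` grow by one law with finite memory

There are laws `kernel M l v` on the `l`-step self-avoiding walks on `ℤ³`, which depend only on a
self-avoiding walk `v` with `M` steps (the memory), such that for EVERY set `A` of `n`-step
self-avoiding walks, of probability at least `exp (-E)`, the uniform walk `ω` in `A` grows by these
laws: the law of the `l` steps after time `t`, given the whole past `ω[0, t]`, is compared with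
`kernel M l (ω[t - M, t])`, which forgets `A`, `n`, `t` and all the past but the last `M` steps. The
mean relative entropies have sum at most `6 (l / M) (n δ(M) + M E)` over the times `t` in
`[M, n - M]`, where `δ(M) = M^(1/3 + o(1))`.
-/

set_option autoImplicit false

namespace Pool.Agent.Results.MP_794e6e_pr.UniversalGrowth

open scoped Classical

/-- the self-avoiding walks on `ℤ³` with `n` steps from the origin -/
def walks (n : ℕ) : Set (Fin (n + 1) → (Fin 3 → ℤ)) :=
  {ω | ω 0 = 0 ∧ Function.Injective ω ∧ ∀ i : Fin n, ∑ j, |ω i.succ j - ω i.castSucc j| = 1}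

/-- The mean under the uniform probability measure on the set `A` of walks. -/
noncomputable def mean {n : ℕ} (A : Set (Fin (n + 1) → (Fin 3 → ℤ)))
    (f : (Fin (n + 1) → (Fin 3 → ℤ)) → ℝ) : ℝ :=
  (∑ᶠ ω ∈ A, f ω) / A.ncard

/-- The probability of `B` under the uniform probability measure on the set `A` of walks. -/
noncomputable def prob {n : ℕ} (A B : Set (Fin (n + 1) → (Fin 3 → ℤ))) : ℝ :=
  mean A (fun ω => if ω ∈ B then 1 else 0)

/-- The piece with `m` steps which starts at time `i`, moved to the origin: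
`k ↦ ω(i + k) - ω(i)`. (It is only used for `i + m ≤ n`, when the minima play no role.) -/
def piece {n : ℕ} (i m : ℕ) (ω : Fin (n + 1) → (Fin 3 → ℤ)) : Fin (m + 1) → (Fin 3 → ℤ) :=
  fun k => ω ⟨min (i + k.1) n, by omega⟩ - ω ⟨min i n, by omega⟩

/-- For a uniform element of the set `A` of walks, the conditional probability that the `l` steps
after time `i` are `ζ`, given that the first `i` steps are `u`. -/
noncomputable def cont {N : ℕ} (A : Set (Fin (N + 1) → (Fin 3 → ℤ))) (i l : ℕ)
    (u : Fin (i + 1) → (Fin 3 → ℤ)) (ζ : Fin (l + 1) → (Fin 3 → ℤ)) : ℝ :=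
  (({η ∈ A | piece 0 i η = u ∧ piece i l η = ζ}).ncard : ℝ) /
    (({η ∈ A | piece 0 i η = u}).ncard : ℝ)

/-- The growth law of the uniform element of `A`: the law of the `l` steps after time `t`, given
that the first `t` steps are those of `ω`. -/
noncomputable def growth {n : ℕ} (A : Set (Fin (n + 1) → (Fin 3 → ℤ))) (t l : ℕ)
    (ω : Fin (n + 1) → (Fin 3 → ℤ)) (ζ : Fin (l + 1) → (Fin 3 → ℤ)) : ℝ :=
  cont A t l (piece 0 t ω) ζ

/-- The universal growth law with memory `M`: the average over `i = 0, …, M - l` of the laws of the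
`l` steps after time `i` of the uniform walk with `M` steps, given that its first `i` steps are the
last `i` steps of `v`. -/
noncomputable def kernel (M l : ℕ) (v : Fin (M + 1) → (Fin 3 → ℤ))
    (ζ : Fin (l + 1) → (Fin 3 → ℤ)) : ℝ :=
  (∑ i ∈ Finset.range (M + 1 - l), cont (walks M) i l (piece (M - i) i v) ζ) /
    ((M + 1 - l : ℕ) : ℝ)

/-- The relative entropy at time `t` of the growth law of the uniform element of `A`, given the
whole past of `ω`, with respect to the universal growth law, given the last `M` steps. -/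
noncomputable def KL {n : ℕ} (A : Set (Fin (n + 1) → (Fin 3 → ℤ))) (M l t : ℕ)
    (ω : Fin (n + 1) → (Fin 3 → ℤ)) : ℝ :=
  ∑ᶠ ζ ∈ walks l, growth A t l ω ζ *
    Real.log (growth A t l ω ζ / kernel M l (piece (t - M) M ω) ζ)

/-- The total variation distance of the same two laws. -/
noncomputable def TV {n : ℕ} (A : Set (Fin (n + 1) → (Fin 3 → ℤ))) (M l t : ℕ)
    (ω : Fin (n + 1) → (Fin 3 → ℤ)) : ℝ :=
  1 / 2 * ∑ᶠ ζ ∈ walks l, |growth A t l ω ζ - kernel M l (piece (t - M) M ω) ζ|

/-- the error `K (M + 3)^(1/3) exp (K (log log (M + 3))²)` -/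
noncomputable def err (K : ℝ) (M : ℕ) : ℝ :=
  K * Real.exp (K * Real.log (Real.log ((M : ℝ) + 3)) ^ 2) * ((M : ℝ) + 3) ^ (1 / 3 : ℝ)

theorem log3 (n : ℕ) : 1 ≤ Real.log ((n : ℝ) + 3) := by
  have h2 : Real.log (Real.exp 1) ≤ Real.log ((n : ℝ) + 3) :=
    Real.log_le_log (Real.exp_pos 1) (by
      have := Real.exp_one_lt_d9
      have h0 : (0 : ℝ) ≤ n := Nat.cast_nonneg n
      linarith)
  rwa [Real.log_exp] at h2

theorem err_mono {K : ℝ} (hK : 0 ≤ K) : Monotone (err K) := by
  intro m n hmn
  have hmn' : (m : ℝ) ≤ n := by exact_mod_cast hmn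
  have h0 : (0 : ℝ) ≤ m := Nat.cast_nonneg m
  have h1 := log3 m
  have h2 : Real.log ((m : ℝ) + 3) ≤ Real.log ((n : ℝ) + 3) :=
    Real.log_le_log (by linarith) (by linarith)
  have h3 : 0 ≤ Real.log (Real.log ((m : ℝ) + 3)) := Real.log_nonneg h1
  have h4 : Real.log (Real.log ((m : ℝ) + 3)) ≤ Real.log (Real.log ((n : ℝ) + 3)) :=
    Real.log_le_log (by linarith) h2
  have h5 := pow_le_pow_left₀ h3 h4 2
  unfold err
  refine mul_le_mul ?_ ?_ (by positivity) (by positivity)
  · exact mul_le_mul_of_nonneg_left (Real.exp_le_exp.2 (mul_le_mul_of_nonneg_left h5 hK)) hK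
  · exact Real.rpow_le_rpow (by positivity) (by linarith) (by norm_num)

open Pool.Agent.N932.FL in
/-- **Conditioned self-avoiding walks on `ℤ³` have one growth law with finite memory.** There is a
constant `K > 0` such that for all `n ≥ 2`, all nonempty sets `A` of `n`-step self-avoiding walks
and all `E` with `|A| ≥ exp (-E) c_n`, for the uniform element `ω` of `A`:
(0) for `1 ≤ l ≤ M ≤ t ≤ n - M` the growth law of `A` and `kernel M l` are probability laws on the
walks with `l` steps, and the second charges every walk which the first charges;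
(1) for `1 ≤ l`, `2 l ≤ M ≤ n`, the mean relative entropies of the growth law over `l` steps of `A`,
given the whole past, with respect to `kernel M l`, given the last `M` steps, have sum at most
`6 (l / M) (n err K M + M E)` over the times `t` in `[M, n - M]`;
(2) with probability at least `1 - exp (-x)`, for ALL such `M` and `l` at once, the squared total
variation distances have sum at most `128 (l / M) (n (err K M + log M) + M (E + x))`. -/
theorem result : ∃ K : ℝ, 0 < K ∧ ∀ n : ℕ, 2 ≤ n →
    ∀ A : Set (Fin (n + 1) → (Fin 3 → ℤ)), A ⊆ walks n → A.Nonempty →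
    ∀ E : ℝ, Real.exp (-E) * (walks n).ncard ≤ A.ncard →
    (∀ M l t : ℕ, 1 ≤ l → l ≤ M → M ≤ t → t + M ≤ n → ∀ ω ∈ A,
      ∑ᶠ ζ ∈ walks l, growth A t l ω ζ = 1 ∧
      ∑ᶠ ζ ∈ walks l, kernel M l (piece (t - M) M ω) ζ = 1 ∧
      ∀ ζ, 0 ≤ growth A t l ω ζ ∧ 0 ≤ kernel M l (piece (t - M) M ω) ζ ∧
        (0 < growth A t l ω ζ → 0 < kernel M l (piece (t - M) M ω) ζ)) ∧
    (∀ M l : ℕ, 1 ≤ l → 2 * l ≤ M → M ≤ n →
      ∑ t ∈ Finset.Icc M (n - M), mean A (KL A M l t) ≤ 6 * (l / M) * (n * err K M + M * E)) ∧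
    ∀ x : ℝ, 0 ≤ x →
      prob A {ω | ¬ ∀ M l : ℕ, 1 ≤ l → 2 * l ≤ M → M ≤ n →
        ∑ t ∈ Finset.Icc M (n - M), TV A M l t ω ^ 2 ≤
          128 * (l / M) * (n * (err K M + Real.log M) + M * (E + x))} ≤ Real.exp (-x) := by
  obtain ⟨K, hK, h⟩ := z3_up
  have hμ := Pool.Agent.H46R2.K3.P.one_le_mu
  obtain ⟨L, hL⟩ : ∃ L : Lat (Fin 3 → ℤ), L = z3 := ⟨_, rfl⟩
  have hw : ∀ n, walks n = L.walks n := fun n => by rw [hL]; rfl
  have hs : ∀ v, L.s v = 1 := fun v => by rw [hL]; rfl
  have hp : ∀ {n : ℕ} (i m : ℕ) (ω : Fin (n + 1) → (Fin 3 → ℤ)), piece i m ω = L.piece i m ω := by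
    intro n i m ω
    funext k
    unfold piece Lat.piece
    rw [hs, one_smul]
  have hc : ∀ {N : ℕ} (A : Set (Fin (N + 1) → (Fin 3 → ℤ))) (i m : ℕ)
      (u : Fin (i + 1) → (Fin 3 → ℤ)) (ζ : Fin (m + 1) → (Fin 3 → ℤ)),
      cont A i m u ζ = L.cont A i m u ζ := by
    intro N A i m u ζ
    unfold cont Lat.cont
    simp only [hp]
  have hker : ∀ (M l : ℕ) (v : Fin (M + 1) → (Fin 3 → ℤ)) (ζ : Fin (l + 1) → (Fin 3 → ℤ)),
      kernel M l v ζ = L.kernel M l v ζ := by
    intro M l v ζ
    unfold kernel Lat.kernel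
    simp only [hp, hc, hw]
  have hKL : ∀ {n : ℕ} (A : Set (Fin (n + 1) → (Fin 3 → ℤ))) (M l t : ℕ),
      KL A M l t = L.KL A M l t := by
    intro n A M l t
    funext ω
    unfold KL Lat.KL growth Lat.growth
    simp only [hp, hc, hw, hker]
  have hTV : ∀ {n : ℕ} (A : Set (Fin (n + 1) → (Fin 3 → ℤ))) (M l t : ℕ)
      (ω : Fin (n + 1) → (Fin 3 → ℤ)), TV A M l t ω = L.TV A M l t ω := by
    intro n A M l t ω
    unfold TV Lat.TV growth Lat.growth
    simp only [hp, hc, hw, hker]
  have hB := L.bd (mu := Pool.Agent.H46R2.K3.mu) (F := err K) (by linarith)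
    (fun n => by unfold err; positivity) (err_mono (by linarith))
    (fun n => by
      rw [hL, z3_card]
      exact Pool.Agent.H46R2.K3.P.mu_pow_le n)
    (fun n => by
      have h1 := h (n + 3) (by omega) n (by omega)
      rw [← hL] at h1
      refine h1.trans (mul_le_mul_of_nonneg_left (Real.exp_le_exp.2 ?_) (by positivity))
      unfold err
      push_cast
      refine mul_le_mul_of_nonneg_left ?_ (by positivity)
      exact Real.rpow_le_rpow (Nat.cast_nonneg _) (by linarith) (by norm_num))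
  refine ⟨K, by linarith, fun n hn A hA hne E hE => ?_⟩
  rw [hw] at hA hE
  obtain ⟨h1, h2⟩ := L.universal hB hn A hA hne E hE
  refine ⟨fun M l t hl hlM hMt htn ω hω => ?_, fun M l hl hM hMn => ?_, fun x hx => ?_⟩
  · have h3 := Pool.Agent.U384.SZ.laws L hA hω hl hlM hMt htn
    unfold growth
    simp only [hp, hc, hw, hker]
    exact h3
  · have := h1 M l hl hM hMn
    simp only [hKL]
    exact this
  · have := h2 x hx
    simp only [hTV]
    exact this

end Pool.Agent.Results.MP_794e6e_pr.UniversalGrowth
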